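import Pool.Agent.Helper431_heights.Main

set_option autoImplicit false

/-!
# `B (2 q^b) = 2`
-/

open Polynomial
open Pool.Agent.Helper431Heights

namespace Pool.Agent.Results.MP_0523aa_nt.HeightTwo

theorem prime_cyclotomic {n : ℕ} (hn : 0 < n) : Prime (cyclotomic n ℤ) :=
  (cyclotomic.irreducible hn).prime

theorem Pt_one_eq {q : ℕ} (hq : q.Prime) : cyclotomic q ℤ = Pt q 1 := by
  have : Fact q.Prime := ⟨hq⟩
  rw [cyclotomic_prime ℤ q]
  rfl

theorem Pt_three_eq {q : ℕ} (hq : q.Prime) (hq2 : q ≠ 2) :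
    cyclotomic q ℤ * cyclotomic (q * 2) ℤ = Pt q 3 := by
  have h2 : ¬ 2 ∣ q := fun h => hq2 ((Nat.prime_dvd_prime_iff_eq Nat.prime_two hq).mp h).symm
  have h := cyclotomic_expand_eq_cyclotomic_mul Nat.prime_two h2 ℤ
  rw [mul_comm, ← h, Pt_one_eq hq]
  simp only [Pt, map_sum, map_pow, expand_X]
  apply Finset.sum_congr rfl
  intro j _
  rw [pow_mul]

theorem Pt_two_eq {q : ℕ} (hq : q.Prime) (hq2 : q ≠ 2) :
    cyclotomic (q * 2) ℤ = Pt q 2 := by
  have hodd : Odd q := hq.odd_of_ne_two hq2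
  apply mul_left_cancel₀ (cyclotomic_ne_zero q ℤ)
  rw [Pt_three_eq hq hq2, Pt_one_eq hq]
  have hX1 : (X - 1 : ℤ[X]) ≠ 0 := by
    have := X_sub_C_ne_zero (1 : ℤ)
    rwa [map_one] at this
  have hX2 : (-X - 1 : ℤ[X]) ≠ 0 := by
    have h := X_sub_C_ne_zero (-1 : ℤ)
    rw [map_neg, map_one] at h
    intro h0
    apply h
    have : (X - -1 : ℤ[X]) = -(-X - 1) := by ring
    rw [this, h0, neg_zero]
  apply mul_left_cancel₀ (mul_ne_zero hX1 hX2)
  have e1 : (∑ j ∈ Finset.range q, (X : ℤ[X]) ^ j) * (X - 1) = X ^ q - 1 := geom_sum_mul X q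
  have e2 : (∑ j ∈ Finset.range q, (-X : ℤ[X]) ^ j) * (-X - 1) = (-X) ^ q - 1 :=
    geom_sum_mul (-X) q
  have e3 : (∑ j ∈ Finset.range q, ((X : ℤ[X]) ^ 2) ^ j) * (X ^ 2 - 1) = (X ^ 2) ^ q - 1 :=
    geom_sum_mul (X ^ 2) q
  have e4 : (∑ j ∈ Finset.range q, (X : ℤ[X]) ^ (2 * j)) = ∑ j ∈ Finset.range q, ((X : ℤ[X]) ^ 2) ^ j := by
    apply Finset.sum_congr rfl
    intro j _
    rw [pow_mul]
  simp only [Pt]
  rw [e4]
  calc (X - 1) * (-X - 1) * ∑ j ∈ Finset.range q, ((X : ℤ[X]) ^ 2) ^ j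
      = - ((∑ j ∈ Finset.range q, ((X : ℤ[X]) ^ 2) ^ j) * (X ^ 2 - 1)) := by ring
    _ = (X ^ q - 1) * ((-X) ^ q - 1) := by
        rw [e3, hodd.neg_pow, ← pow_mul, mul_comm 2 q, pow_mul]
        ring
    _ = _ := by rw [← e1, ← e2]; ring

theorem expand_cyclotomic_pow {q : ℕ} (hq : q.Prime) {n : ℕ} (hn : q ∣ n) (i : ℕ) :
    expand ℤ (q ^ i) (cyclotomic n ℤ) = cyclotomic (n * q ^ i) ℤ := by
  induction i with
  | zero => simp
  | succ i ih =>
    rw [pow_succ', expand_mul, ih,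
      cyclotomic_expand_eq_cyclotomic hq (dvd_mul_of_dvd_left hn _)]
    congr 1
    ring

/-- all the factors of the levels -/
noncomputable def full (q b : ℕ) : ℤ[X] :=
  ∏ i ∈ Finset.range b, expand ℤ (q ^ i) (cyclotomic q ℤ * cyclotomic (q * 2) ℤ)

theorem factor {q : ℕ} (hq : q.Prime) (hq2 : q ≠ 2) (b : ℕ) :
    (X ^ (2 * q ^ b) - 1 : ℤ[X]) = full q b * (X ^ 2 - 1) := by
  induction b with
  | zero => simp [full]
  | succ b ih =>
    have e3 : (∑ j ∈ Finset.range q, ((X : ℤ[X]) ^ 2) ^ j) * (X ^ 2 - 1) = (X ^ 2) ^ q - 1 :=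
      geom_sum_mul (X ^ 2) q
    have e4 : Pt q 3 = ∑ j ∈ Finset.range q, ((X : ℤ[X]) ^ 2) ^ j := by
      simp only [Pt]
      apply Finset.sum_congr rfl
      intro j _
      rw [pow_mul]
    rw [full, Finset.prod_range_succ, ← full]
    calc (X ^ (2 * q ^ (b + 1)) - 1 : ℤ[X]) = expand ℤ (q ^ b) ((X ^ 2) ^ q - 1) := by
          rw [map_sub, map_pow, map_pow, expand_X, map_one, ← pow_mul, ← pow_mul]
          congr 2
          ring
      _ = expand ℤ (q ^ b) (cyclotomic q ℤ * cyclotomic (q * 2) ℤ) * (X ^ (2 * q ^ b) - 1) := by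
          rw [← e3, map_mul, Pt_three_eq hq hq2, e4]
          congr 1
          rw [map_sub, map_pow, expand_X, map_one, ← pow_mul]
          congr 2
          ring
      _ = _ := by rw [ih]; ring

theorem Pr_update (q : ℕ) (t : ℕ → ℕ) (b k : ℕ) :
    Pr q (Function.update t b k) (b + 1) = Pr q t b * expand ℤ (q ^ b) (Pt q k) := by
  unfold Pr
  rw [Finset.prod_range_succ, Function.update_self]
  congr 1
  apply Finset.prod_congr rfl
  intro i hi
  rw [Function.update_of_ne (Finset.mem_range.mp hi).ne]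

theorem divisors_full {q : ℕ} (hq : q.Prime) (hq2 : q ≠ 2) (b : ℕ) :
    ∀ f h : ℤ[X], f ∣ full q b * h → ∃ (t : ℕ → ℕ) (f' : ℤ[X]), f' ∣ h ∧ f = f' * Pr q t b := by
  induction b with
  | zero =>
    intro f h hf
    refine ⟨fun _ => 0, f, ?_, ?_⟩
    · simpa [full] using hf
    · simp [Pr]
  | succ b ih =>
    intro f h hf
    have hg₁ : Prime (expand ℤ (q ^ b) (cyclotomic q ℤ)) := by
      rw [expand_cyclotomic_pow hq dvd_rfl]
      exact prime_cyclotomic (Nat.mul_pos hq.pos (pow_pos hq.pos b))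
    have hg₂ : Prime (expand ℤ (q ^ b) (cyclotomic (q * 2) ℤ)) := by
      rw [expand_cyclotomic_pow hq (dvd_mul_right q 2)]
      exact prime_cyclotomic (Nat.mul_pos (Nat.mul_pos hq.pos two_pos) (pow_pos hq.pos b))
    have hf' : f ∣ (expand ℤ (q ^ b) (cyclotomic q ℤ) * expand ℤ (q ^ b) (cyclotomic (q * 2) ℤ)) *
        (full q b * h) := by
      rw [full, Finset.prod_range_succ, ← full, map_mul] at hf
      convert hf using 1
      ring
    obtain ⟨f1, hf1, hcases⟩ := dvd_two_primes hg₁ hg₂ hf'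
    obtain ⟨t, f2, hf2, hf1eq⟩ := ih f1 h hf1
    rcases hcases with h1 | h1 | h1 | h1
    · refine ⟨Function.update t b 0, f2, hf2, ?_⟩
      rw [Pr_update, h1, hf1eq]
      simp [Pt]
    · refine ⟨Function.update t b 1, f2, hf2, ?_⟩
      rw [Pr_update, h1, hf1eq, Pt_one_eq hq]
      ring
    · refine ⟨Function.update t b 2, f2, hf2, ?_⟩
      rw [Pr_update, h1, hf1eq, Pt_two_eq hq hq2]
      ring
    · refine ⟨Function.update t b 3, f2, hf2, ?_⟩
      rw [Pr_update, h1, hf1eq, ← Pt_three_eq hq hq2, map_mul]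
      ring

/-- Every divisor of `x^(2 q^b) - 1` has height at most two. -/
theorem height_le_two {q : ℕ} (hq : q.Prime) (hq2 : q ≠ 2) (b : ℕ) {f : ℤ[X]}
    (hf : f ∣ X ^ (2 * q ^ b) - 1) : height f ≤ 2 := by
  have hodd : q % 2 = 1 := Nat.odd_iff.mp (hq.odd_of_ne_two hq2)
  have hq3 : 3 ≤ q := by have := hq.two_le; omega
  rw [factor hq hq2] at hf
  obtain ⟨t, f', hf', rfl⟩ := divisors_full hq hq2 b f _ hf
  have h1 : (X ^ 2 - 1 : ℤ[X]) = ((X - 1) * (X + 1)) * 1 := by ring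
  rw [h1] at hf'
  have p1 : Prime (X - 1 : ℤ[X]) := by
    have := prime_X_sub_C (1 : ℤ)
    rwa [map_one] at this
  have p2 : Prime (X + 1 : ℤ[X]) := by
    have := prime_X_sub_C (-1 : ℤ)
    rwa [map_neg, map_one, sub_neg_eq_add] at this
  obtain ⟨u, hu, hcases⟩ := dvd_two_primes p1 p2 hf'
  have hunit : IsUnit u := isUnit_of_dvd_one hu
  have key : ∃ x y z : ℤ, Good x y z ∧ f' = (C x + C y * X + C z * X ^ 2) * u := by
    rcases hcases with h | h | h | h
    · exact ⟨1, 0, 0, by decide, by rw [h, map_one, map_zero]; ring⟩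
    · exact ⟨-1, 1, 0, by decide, by rw [h, map_neg, map_one, map_zero]; ring⟩
    · exact ⟨1, 1, 0, by decide, by rw [h, map_one, map_zero]; ring⟩
    · exact ⟨-1, 0, 1, by decide, by rw [h, map_neg, map_one, map_zero]; ring⟩
  obtain ⟨x, y, z, hgood, rfl⟩ := key
  have hassoc : Associated ((C x + C y * X + C z * X ^ 2) * Pr q t b)
      ((C x + C y * X + C z * X ^ 2) * u * Pr q t b) := by
    refine ⟨hunit.unit, ?_⟩
    rw [IsUnit.unit_spec]
    ring
  rw [← height_eq_of_associated hassoc]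
  exact height_le (main_bound hodd hq3 b t x y z hgood)

/-- For every odd prime `q` and every `b ≥ 1`, `B (2 q^b) = 2`. -/
theorem result : ∀ q b : ℕ, q.Prime → q ≠ 2 → 1 ≤ b → B (2 * q ^ b) = 2 := by
  intro q b hq hq2 hb
  have hq3 : 3 ≤ q := by have := hq.two_le; omega
  apply le_antisymm
  · exact B_le fun f hf => height_le_two hq hq2 b hf
  · have hpos : 0 < 2 * q ^ b := Nat.mul_pos two_pos (pow_pos hq.pos b)
    have hdvd : (X + 1) * cyclotomic q ℤ ∣ (X ^ (2 * q ^ b) - 1 : ℤ[X]) := by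
      have h1 : (X + 1 : ℤ[X]) ∣ X ^ 2 - 1 := ⟨X - 1, by ring⟩
      obtain ⟨c, rfl⟩ : ∃ c, b = c + 1 := ⟨b - 1, by omega⟩
      rw [factor hq hq2, full, Finset.prod_range_succ']
      have h2 : cyclotomic q ℤ ∣
          (∏ k ∈ Finset.range c, expand ℤ (q ^ (k + 1)) (cyclotomic q ℤ * cyclotomic (q * 2) ℤ)) *
            expand ℤ (q ^ 0) (cyclotomic q ℤ * cyclotomic (q * 2) ℤ) := by
        rw [pow_zero, expand_one]
        exact dvd_mul_of_dvd_right (dvd_mul_right _ _) _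
      rw [mul_comm (X + 1)]
      exact mul_dvd_mul h2 h1
    have h1 := height_le_B hpos hdvd
    have h2 := natAbs_coeff_le_height ((X + 1) * cyclotomic q ℤ) 1
    have h3 : ((X + 1) * cyclotomic q ℤ).coeff 1 = 2 := by
      rw [Pt_one_eq hq, add_mul, one_mul, coeff_add, coeff_X_mul, Pt, coeff_geom_sum,
        coeff_geom_sum, if_pos (by omega), if_pos (by omega)]
      norm_num
    rw [h3] at h2
    exact h2.trans h1

end Pool.Agent.Results.MP_0523aa_nt.HeightTwo
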